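import Pool.Agent.X97.IR.Cnt

set_option autoImplicit false

/-! # MP_76bd4c_lc: an introreducible set that is not finitely decomposable -/

namespace Pool.Agent.Results.MP_76bd4c_lc.NotFinitelyDecomposable

open Pool.Agent.X97.IR

/-- There is an introreducible set `A` that is not a finite union of sets `A_0, ..., A_n` with
`A ≤_T^{ui} A_i` for all `i`. -/
theorem result : ∃ A : Set ℕ, Introreducible A ∧ ¬ FinitelyDecomposable A :=
  exists_not_finitelyDecomposable

end Pool.Agent.Results.MP_76bd4c_lc.NotFinitelyDecomposable
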